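import Pool.Agent.Lib.MP_55c57e_al.Final

set_option autoImplicit false

namespace Pool.Agent.Results.MP_55c57e_al.RankTwo

open Pool.CB55c57e

/-- For the quiver gauge theory with one vertex, `g` loops, dimension `v = 2` and framing `w`, and
every generic cocharacter `ν`, the Cartan subquotient `A_0 / ∑_{n > 0} A_{-n} A_n` of the
flavour-deformed quantized Coulomb branch `A` is flat, indeed free of finite rank
`w (w - 1) / 2 + 2 g w`, over `ℂ[𝔥_X, ħ]`. -/
theorem result (g w : ℕ) (ν : ℤ) (hν : ν ≠ 0) :
    Module.Flat (Par g w) (CartanSub g w ν) ∧ Module.Free (Par g w) (CartanSub g w ν) ∧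
      Module.Finite (Par g w) (CartanSub g w ν) ∧
      Module.finrank (Par g w) (CartanSub g w ν) = w * (w - 1) / 2 + 2 * g * w := by
  obtain ⟨h1, h2, h3⟩ := cartanSub_free g w ν hν
  exact ⟨inferInstance, h1, h2, h3⟩

end Pool.Agent.Results.MP_55c57e_al.RankTwo
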